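import Mathlib
import Pool.Agent.Helper22.NAdicDefs
import Pool.Agent.Helper22.NAdicUpper

set_option autoImplicit false

namespace Pool.Agent.Results.MP_68df70_lc.AverageFinite

open Pool.Agent.Helper22.NAdic

/-- For all `N ≥ 2`, `n ≥ 1`, the average `N`-adic complexity of the `N`-ary sequences of length
`n` is `n/2 + O(1)`, with explicit constants. The first clause certifies that the complexity of a
finite sequence is a genuine minimum. -/
theorem result :
    ∀ N n : ℕ, 2 ≤ N → 1 ≤ n →
      (∀ a : Fin n → Fin N, IsLeast (extensionValues N n a) (finComplexity N n a)) ∧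
      (n : ℝ) / 2 - 1 / 2 * Real.logb N 12 ≤ avgFin N n ∧
      avgFin N n ≤ (n : ℝ) / 2 + 1 / 2 + 1 / 2 * Real.logb N 12 := by
  intro N n hN hn
  refine ⟨fun a => ?_, lower_bound hN, upper_bound hN hn⟩
  rw [finComplexity_eq hN]
  exact isLeast_ext hN a

end Pool.Agent.Results.MP_68df70_lc.AverageFinite
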